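import Mathlib

/-!
Elementarily homogeneous partial orders: definitions, and closure properties of first order
definable relations.
-/

namespace Pool.Agent.H74EH

open FirstOrder FirstOrder.Language

attribute [local instance] FirstOrder.Language.orderStructure

/-- The tuples `a` and `b` satisfy the same first order formulas in the language of orders. -/
def ElemEquiv {M : Type} [PartialOrder M] {n : ℕ} (a b : Fin n → M) : Prop :=
  ∀ φ : Language.order.Formula (Fin n), φ.Realize a ↔ φ.Realize b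

/-- Every elementary map between finite subsets extends to an automorphism. -/
def ElemHomogeneous (M : Type) [PartialOrder M] : Prop :=
  ∀ (n : ℕ) (a b : Fin n → M), ElemEquiv a b → ∃ α : M ≃o M, ∀ i, α (a i) = b i

section Def

variable {M : Type} [PartialOrder M]

/-- relations which are first order definable without parameters -/
def Dfn {α : Type} (D : (α → M) → Prop) : Prop :=
  ∃ φ : Language.order.Formula α, ∀ v, φ.Realize v ↔ D v

theorem Dfn.congr {α : Type} {D D' : (α → M) → Prop} (h : Dfn D) (h' : ∀ v, D v ↔ D' v) :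
    Dfn D' := by
  obtain ⟨φ, hφ⟩ := h
  exact ⟨φ, fun v => (hφ v).trans (h' v)⟩

theorem Dfn.le {α : Type} (i j : α) : Dfn (fun v : α → M => v i ≤ v j) := by
  refine ⟨Relations.formula₂ (orderRel.le : Language.order.Relations 2) (Term.var i)
    (Term.var j), ?_⟩
  intro v
  rw [Formula.realize_rel₂]
  rfl

theorem Dfn.eq {α : Type} (i j : α) : Dfn (fun v : α → M => v i = v j) := by
  refine ⟨Term.equal (Term.var i) (Term.var j), ?_⟩
  intro v
  rw [Formula.realize_equal]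
  rfl

theorem Dfn.not {α : Type} {D : (α → M) → Prop} (h : Dfn D) : Dfn (fun v => ¬ D v) := by
  obtain ⟨φ, hφ⟩ := h
  refine ⟨φ.not, fun v => ?_⟩
  rw [Formula.realize_not, hφ]

theorem Dfn.and {α : Type} {D D' : (α → M) → Prop} (h : Dfn D) (h' : Dfn D') :
    Dfn (fun v => D v ∧ D' v) := by
  obtain ⟨φ, hφ⟩ := h
  obtain ⟨ψ, hψ⟩ := h'
  refine ⟨φ ⊓ ψ, fun v => ?_⟩
  rw [Formula.realize_inf, hφ, hψ]

theorem Dfn.or {α : Type} {D D' : (α → M) → Prop} (h : Dfn D) (h' : Dfn D') :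
    Dfn (fun v => D v ∨ D' v) :=
  ((h.not.and h'.not).not).congr (fun v => by tauto)

theorem Dfn.imp {α : Type} {D D' : (α → M) → Prop} (h : Dfn D) (h' : Dfn D') :
    Dfn (fun v => D v → D' v) :=
  ((h.and h'.not).not).congr (fun v => by tauto)

theorem Dfn.ex {α : Type} {D : (α → M) → M → Prop}
    (h : Dfn (fun v : α ⊕ Fin 1 → M => D (fun i => v (Sum.inl i)) (v (Sum.inr 0)))) :
    Dfn (fun v => ∃ x, D v x) := by
  obtain ⟨φ, hφ⟩ := h
  refine ⟨φ.iExs (Fin 1), fun v => ?_⟩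
  rw [Formula.realize_iExs]
  constructor
  · rintro ⟨i, hi⟩
    rw [hφ] at hi
    exact ⟨i 0, hi⟩
  · rintro ⟨x, hx⟩
    refine ⟨fun _ => x, ?_⟩
    rw [hφ]
    exact hx

theorem Dfn.all {α : Type} {D : (α → M) → M → Prop}
    (h : Dfn (fun v : α ⊕ Fin 1 → M => D (fun i => v (Sum.inl i)) (v (Sum.inr 0)))) :
    Dfn (fun v => ∀ x, D v x) := by
  have h1 : Dfn (fun v : α → M => ∃ x, ¬ D v x) := Dfn.ex (D := fun v x => ¬ D v x) h.not
  exact h1.not.congr (fun v => by simp)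

/-- definable unary predicates, in all variable contexts -/
def D1 (p : M → Prop) : Prop := ∀ (α : Type) (i : α), Dfn (fun v : α → M => p (v i))

/-- definable binary relations, in all variable contexts -/
def D2 (q : M → M → Prop) : Prop :=
  ∀ (α : Type) (i j : α), Dfn (fun v : α → M => q (v i) (v j))

theorem ElemEquiv.one {n : ℕ} {a b : Fin n → M} (h : ElemEquiv a b) {p : M → Prop} (hp : D1 p)
    (i : Fin n) : p (a i) ↔ p (b i) := by
  obtain ⟨φ, hφ⟩ := hp (Fin n) i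
  exact ((hφ a).symm.trans (h φ)).trans (hφ b)

theorem ElemEquiv.two {n : ℕ} {a b : Fin n → M} (h : ElemEquiv a b) {q : M → M → Prop}
    (hq : D2 q) (i j : Fin n) : q (a i) (a j) ↔ q (b i) (b j) := by
  obtain ⟨φ, hφ⟩ := hq (Fin n) i j
  exact ((hφ a).symm.trans (h φ)).trans (hφ b)

end Def

section Preds

variable {M : Type} [PartialOrder M]

def Mn (u : M) : Prop := ∀ v, v ≤ u → v = u

def Mx (u : M) : Prop := ∀ v, u ≤ v → v = u

/-- below `u` there are only minimal elements and elements below `w` -/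
def Cov (w u : M) : Prop := ∀ v, v ≤ u → v = u ∨ Mn v ∨ v ≤ w

def Xp : ℕ → M → Prop
  | 0, u => ¬ Mn u ∧ ¬ Mx u ∧ ∀ v, v ≤ u → v = u ∨ Mn v
  | m + 1, u => ¬ Mx u ∧ ∃ w, w ≤ u ∧ w ≠ u ∧ Xp m w ∧ Cov w u

def Zb (m : ℕ) (u : M) : Prop := Mx u ∧ ∃ w, w ≤ u ∧ w ≠ u ∧ Xp m w ∧ Cov w u

def Up (m : ℕ) (u : M) : Prop := ∃ w, u ≤ w ∧ Xp m w

def Yp : ℕ → M → Prop
  | 0, u => Mn u ∧ Up 0 u
  | m + 1, u => Mn u ∧ Up (m + 1) u ∧ ¬ Up m u

def Za (m : ℕ) (u : M) : Prop :=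
  Mx u ∧ ¬ Mn u ∧ (∀ v, v ≤ u → v = u ∨ Mn v) ∧ ∃ v, v ≤ u ∧ Yp m v

def SC (u w : M) : Prop := ∃ u' q p : M, u' ≤ u ∧ u' ≤ p ∧ q ≤ p ∧ q ≤ w

def Bit (m : ℕ) (u : M) : Prop := ∃ w, SC u w ∧ Zb m w

theorem Mn_D1 : D1 (Mn (M := M)) := by
  intro α i
  exact Dfn.all (D := fun v x => x ≤ v i → x = v i) ((Dfn.le _ _).imp (Dfn.eq _ _))

theorem Mx_D1 : D1 (Mx (M := M)) := by
  intro α i
  exact Dfn.all (D := fun v x => v i ≤ x → x = v i) ((Dfn.le _ _).imp (Dfn.eq _ _))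

theorem Cov_D2 : D2 (Cov (M := M)) := by
  intro α i j
  exact Dfn.all (D := fun v x => x ≤ v j → x = v j ∨ Mn x ∨ x ≤ v i)
    ((Dfn.le _ _).imp ((Dfn.eq _ _).or ((Mn_D1 _ _).or (Dfn.le _ _))))

theorem low_D1 : D1 (fun u : M => ∀ v, v ≤ u → v = u ∨ Mn v) := by
  intro α i
  exact Dfn.all (D := fun v x => x ≤ v i → x = v i ∨ Mn x)
    ((Dfn.le _ _).imp ((Dfn.eq _ _).or (Mn_D1 _ _)))

theorem below_D1 {p : M → Prop} (hp : D1 p) :
    D1 (fun u : M => ∃ w, w ≤ u ∧ w ≠ u ∧ p w ∧ Cov w u) := by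
  intro α i
  exact Dfn.ex (D := fun v x => x ≤ v i ∧ x ≠ v i ∧ p x ∧ Cov x (v i))
    ((Dfn.le _ _).and ((Dfn.eq _ _).not.and ((hp _ _).and (Cov_D2 _ _ _))))

theorem Xp_D1 (m : ℕ) : D1 (Xp (M := M) m) := by
  induction m with
  | zero =>
    intro α i
    exact (Mn_D1 _ _).not.and ((Mx_D1 _ _).not.and (low_D1 _ _))
  | succ m ih =>
    intro α i
    exact (Mx_D1 _ _).not.and (below_D1 ih _ _)

theorem Zb_D1 (m : ℕ) : D1 (Zb (M := M) m) := by
  intro α i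
  exact (Mx_D1 _ _).and (below_D1 (Xp_D1 m) _ _)

theorem Up_D1 (m : ℕ) : D1 (Up (M := M) m) := by
  intro α i
  exact Dfn.ex (D := fun v x => v i ≤ x ∧ Xp m x) ((Dfn.le _ _).and (Xp_D1 m _ _))

theorem Yp_D1 (m : ℕ) : D1 (Yp (M := M) m) := by
  cases m with
  | zero =>
    intro α i
    exact (Mn_D1 _ _).and (Up_D1 0 _ _)
  | succ m =>
    intro α i
    exact (Mn_D1 _ _).and ((Up_D1 (m + 1) _ _).and (Up_D1 m _ _).not)

theorem Za_D1 (m : ℕ) : D1 (Za (M := M) m) := by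
  intro α i
  refine (Mx_D1 _ _).and ((Mn_D1 _ _).not.and ((low_D1 _ _).and ?_))
  exact Dfn.ex (D := fun v x => x ≤ v i ∧ Yp m x) ((Dfn.le _ _).and (Yp_D1 m _ _))

theorem SC_D2 : D2 (SC (M := M)) := by
  intro α i j
  refine Dfn.ex (D := fun v u' => ∃ q p : M, u' ≤ v i ∧ u' ≤ p ∧ q ≤ p ∧ q ≤ v j) ?_
  refine Dfn.ex (D := fun v q => ∃ p : M, v (Sum.inr 0) ≤ v (Sum.inl i) ∧ v (Sum.inr 0) ≤ p ∧
    q ≤ p ∧ q ≤ v (Sum.inl j)) ?_
  refine Dfn.ex (D := fun v p => v (Sum.inl (Sum.inr 0)) ≤ v (Sum.inl (Sum.inl i)) ∧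
    v (Sum.inl (Sum.inr 0)) ≤ p ∧ v (Sum.inr 0) ≤ p ∧ v (Sum.inr 0) ≤ v (Sum.inl (Sum.inl j))) ?_
  exact (Dfn.le _ _).and ((Dfn.le _ _).and ((Dfn.le _ _).and (Dfn.le _ _)))

theorem Bit_D1 (m : ℕ) : D1 (Bit (M := M) m) := by
  intro α i
  exact Dfn.ex (D := fun v x => SC (v i) x ∧ Zb m x) ((SC_D2 _ _ _).and (Zb_D1 m _ _))

end Preds

end Pool.Agent.H74EH
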