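import Pool.Agent.H74EH.Hom
import Pool.Agent.H74FS.Analytic
import Pool.Agent.H74FS.Core

namespace Pool.Agent.H74EH

theorem range_of_iso {s t : ℕ → ℕ → Bool} (e : @OrderIso El El (ord s).toLE (ord t).toLE) :
    Set.range s ⊆ Set.range t := by
  rintro _ ⟨i, rfl⟩
  refine ⟨(cm (e (.x (i, 0) 0))).1, ?_⟩
  funext m
  have h1 := @Bit_iso El El (ord s) (ord t) e m (.x (i, 0) 0)
  rw [bit_iff, bit_iff] at h1
  rw [Bool.eq_iff_iff]
  exact h1

theorem iso_of_range {s t : ℕ → ℕ → Bool} (h : Set.range s = Set.range t) :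
    Nonempty (@OrderIso El El (ord s).toLE (ord t).toLE) := by
  have hmem : ∀ c : ℕ × ℕ, t c.1 ∈ Set.range s := fun c => by rw [h]; exact ⟨c.1, rfl⟩
  obtain ⟨β, hβ⟩ := H74FS.exists_equiv_fiber (α := ℕ × ℕ) (β := ℕ × ℕ) (γ := Set.range s)
    (fun c => ⟨s c.1, ⟨c.1, rfl⟩⟩) (fun c => ⟨t c.1, hmem c⟩) (by
      rintro ⟨_, ⟨i, rfl⟩⟩
      refine Infinite.of_injective (fun k : ℕ => (⟨(i, k), rfl⟩ :
        {a : ℕ × ℕ // (⟨s a.1, ⟨a.1, rfl⟩⟩ : Set.range s) = ⟨s i, ⟨i, rfl⟩⟩})) ?_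
      intro a b hab
      simpa using hab) (by
      rintro ⟨r, hr⟩
      have hr' : r ∈ Set.range t := by rw [← h]; exact hr
      obtain ⟨j, rfl⟩ := hr'
      refine Infinite.of_injective (fun k : ℕ => (⟨(j, k), rfl⟩ :
        {a : ℕ × ℕ // (⟨t a.1, hmem a⟩ : Set.range s) = ⟨t j, hr⟩})) ?_
      intro a b hab
      simpa using hab)
  have hβ' : ∀ c, t (β c).1 = s c.1 := fun c => congrArg Subtype.val (hβ c)
  exact ⟨@RelIso.mk El El (ord s).le (ord t).le (move β) (fun {a b} => move_le hβ' a b)⟩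

noncomputable def eE : El ≃ ℕ := Classical.choice nonempty_equiv_of_countable

/-- the partial order on `ℕ` attached to a sequence of points of the Cantor space -/
@[reducible] noncomputable def Ord (s : ℕ → ℕ → Bool) : PartialOrder ℕ :=
  @PartialOrder.lift ℕ El (ord s) eE.symm eE.symm.injective

noncomputable def OrdIso (s : ℕ → ℕ → Bool) : @OrderIso ℕ El (Ord s).toLE (ord s).toLE :=
  @RelIso.mk ℕ El (Ord s).le (ord s).le eE.symm (fun {_ _} => Iff.rfl)

theorem Ord_hom (s : ℕ → ℕ → Bool) : @ElemHomogeneous ℕ (Ord s) :=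
  @ElemHomogeneous.of_iso El ℕ (ord s) (Ord s)
    (@OrderIso.symm ℕ El (Ord s).toLE (ord s).toLE (OrdIso s)) (hom_ord s)

theorem Ord_iso (s t : ℕ → ℕ → Bool) :
    Nonempty (@OrderIso ℕ ℕ (Ord s).toLE (Ord t).toLE) ↔ Set.range s = Set.range t := by
  have key : ∀ s t : ℕ → ℕ → Bool, Nonempty (@OrderIso ℕ ℕ (Ord s).toLE (Ord t).toLE) →
      Set.range s ⊆ Set.range t := by
    rintro s t ⟨e⟩
    exact range_of_iso (RelIso.trans (RelIso.symm (OrdIso s)) (RelIso.trans e (OrdIso t)))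
  constructor
  · rintro ⟨e⟩
    exact Set.Subset.antisymm (key s t ⟨e⟩) (key t s ⟨RelIso.symm e⟩)
  · intro h
    obtain ⟨e⟩ := iso_of_range h
    exact ⟨RelIso.trans (OrdIso s) (RelIso.trans e (RelIso.symm (OrdIso t)))⟩

theorem bit_cl (i m : ℕ) : H74FS.Cl (fun s : ℕ → ℕ → Bool => s i m = true) :=
  H74FS.Cl.comp (H74FS.Cl.coord (D := Bool) m {true}) (continuous_apply i)

theorem lt'_cl (a b : El) : H74FS.Cl (fun s : ℕ → ℕ → Bool => lt' s a b) := by
  have hc : ∀ p : Prop, H74FS.Cl (fun _ : ℕ → ℕ → Bool => p) := fun p => H74FS.Cl.const p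
  cases a with
  | y c n =>
    cases b with
    | y d m => exact H74FS.Cl.congr (hc (c = d ∧ n = m)) (fun _ => Iff.rfl)
    | x d m => exact H74FS.Cl.congr (hc (c = d ∧ n ≤ m)) (fun _ => Iff.rfl)
    | z d m =>
      exact H74FS.Cl.congr ((hc (c = d)).and ((hc (n = m)).or ((hc (n ≤ m)).and
        (bit_cl d.1 m)))) (fun _ => Iff.rfl)
  | x c n =>
    cases b with
    | y d m => exact H74FS.Cl.congr (hc False) (fun _ => Iff.rfl)
    | x d m => exact H74FS.Cl.congr (hc (c = d ∧ n ≤ m)) (fun _ => Iff.rfl)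
    | z d m =>
      exact H74FS.Cl.congr ((hc (c = d)).and ((hc (n ≤ m)).and (bit_cl d.1 m)))
        (fun _ => Iff.rfl)
  | z c n =>
    cases b with
    | y d m => exact H74FS.Cl.congr (hc False) (fun _ => Iff.rfl)
    | x d m => exact H74FS.Cl.congr (hc False) (fun _ => Iff.rfl)
    | z d m => exact H74FS.Cl.congr (hc (c = d ∧ n = m)) (fun _ => Iff.rfl)

theorem Ord_clopen (m n : ℕ) : IsClopen {s : ℕ → ℕ → Bool | (Ord s).le m n} :=
  lt'_cl (eE.symm m) (eE.symm n)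

end Pool.Agent.H74EH
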