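import Pool.Agent.H74EH.Model
namespace Pool.Agent.H74EH
open FirstOrder FirstOrder.Language
attribute [local instance] FirstOrder.Language.orderStructure

section Iso

variable {M N : Type} [PartialOrder M] [PartialOrder N] (e : M ≃o N)

theorem Mn_iso (u : M) : Mn (e u) ↔ Mn u := by
  unfold Mn
  rw [e.surjective.forall]
  apply forall_congr'
  intro v
  rw [e.le_iff_le, e.injective.eq_iff]

theorem Mx_iso (u : M) : Mx (e u) ↔ Mx u := by
  unfold Mx
  rw [e.surjective.forall]
  apply forall_congr'
  intro v
  rw [e.le_iff_le, e.injective.eq_iff]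

theorem Cov_iso (w u : M) : Cov (e w) (e u) ↔ Cov w u := by
  unfold Cov
  rw [e.surjective.forall]
  apply forall_congr'
  intro v
  rw [e.le_iff_le, e.le_iff_le, Mn_iso, e.injective.eq_iff]

theorem Xp_iso (m : ℕ) : ∀ u : M, Xp m (e u) ↔ Xp m u := by
  induction m with
  | zero =>
    intro u
    unfold Xp
    rw [Mn_iso, Mx_iso, e.surjective.forall]
    apply and_congr_right; intro _
    apply and_congr_right; intro _
    apply forall_congr'
    intro v
    rw [e.le_iff_le, Mn_iso, e.injective.eq_iff]
  | succ m ih =>
    intro u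
    unfold Xp
    rw [Mx_iso, e.surjective.exists]
    apply and_congr_right; intro _
    apply exists_congr
    intro v
    rw [e.le_iff_le, Cov_iso, e.injective.ne_iff, ih]

theorem Zb_iso (m : ℕ) (u : M) : Zb m (e u) ↔ Zb m u := by
  unfold Zb
  rw [Mx_iso, e.surjective.exists]
  apply and_congr_right; intro _
  apply exists_congr
  intro v
  rw [e.le_iff_le, Cov_iso, e.injective.ne_iff, Xp_iso]

theorem SC_iso (u w : M) : SC (e u) (e w) ↔ SC u w := by
  unfold SC
  rw [e.surjective.exists]
  apply exists_congr; intro u'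
  rw [e.surjective.exists]
  apply exists_congr; intro q
  rw [e.surjective.exists]
  apply exists_congr; intro p
  rw [e.le_iff_le, e.le_iff_le, e.le_iff_le, e.le_iff_le]

theorem Bit_iso (m : ℕ) (u : M) : Bit m (e u) ↔ Bit m u := by
  unfold Bit
  rw [e.surjective.exists]
  apply exists_congr; intro w
  rw [SC_iso, Zb_iso]

/-- an order isomorphism as an isomorphism of structures -/
def toLEquiv : M ≃[Language.order] N where
  toEquiv := e.toEquiv
  map_fun' := by
    intro n f
    exact isEmptyElim f
  map_rel' := by
    intro n R x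
    cases R
    exact e.le_iff_le

include e in
theorem ElemHomogeneous.of_iso (h : ElemHomogeneous M) : ElemHomogeneous N := by
  intro n a b hab
  have h1 : ElemEquiv (fun i => e.symm (a i)) (fun i => e.symm (b i)) := by
    intro φ
    have ha := StrongHomClass.realize_formula (toLEquiv e.symm) φ (v := a)
    have hb := StrongHomClass.realize_formula (toLEquiv e.symm) φ (v := b)
    exact (ha.trans (hab φ)).trans hb.symm
  obtain ⟨α, hα⟩ := h n _ _ h1
  refine ⟨(e.symm.trans α).trans e, ?_⟩
  intro i
  show e (α (e.symm (a i))) = b i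
  rw [hα]
  simp

end Iso

theorem perm_ext {X L : Type} (lab : X → L) : ∀ {n : ℕ} (f g : Fin n → X)
    (_ : ∀ i, lab (f i) = lab (g i)) (_ : ∀ i j, f i = f j ↔ g i = g j),
    ∃ π : X ≃ X, (∀ x, lab (π x) = lab x) ∧ ∀ i, π (f i) = g i := by
  classical
  intro n
  induction n with
  | zero =>
    intro f g _ _
    exact ⟨Equiv.refl X, fun _ => rfl, fun i => i.elim0⟩
  | succ n ih =>
    intro f g hlab heq
    obtain ⟨π, h1, h2⟩ := ih (fun i => f i.castSucc) (fun i => g i.castSucc)
      (fun i => hlab _) (fun i j => heq _ _)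
    by_cases h3 : π (f (Fin.last n)) = g (Fin.last n)
    · refine ⟨π, h1, ?_⟩
      intro i
      induction i using Fin.lastCases with
      | last => exact h3
      | cast i => exact h2 i
    · refine ⟨π.trans (Equiv.swap (π (f (Fin.last n))) (g (Fin.last n))), ?_, ?_⟩
      · intro x
        have h4 : lab (π (f (Fin.last n))) = lab (g (Fin.last n)) := by rw [h1, hlab]
        show lab (Equiv.swap (π (f (Fin.last n))) (g (Fin.last n)) (π x)) = lab x
        by_cases h5 : π x = π (f (Fin.last n))
        · rw [h5, Equiv.swap_apply_left, ← h4, ← h5, h1]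
        · by_cases h6 : π x = g (Fin.last n)
          · rw [h6, Equiv.swap_apply_right, h4, ← h6, h1]
          · rw [Equiv.swap_apply_of_ne_of_ne h5 h6, h1]
      · intro i
        show Equiv.swap (π (f (Fin.last n))) (g (Fin.last n)) (π (f i)) = g i
        induction i using Fin.lastCases with
        | last => rw [Equiv.swap_apply_left]
        | cast i =>
          have h5 : π (f i.castSucc) = g i.castSucc := h2 i
          rw [h5]
          apply Equiv.swap_apply_of_ne_of_ne
          · intro h6
            have h7 : f i.castSucc = f (Fin.last n) := by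
              apply π.injective
              rw [h5, h6]
            have h8 := (heq _ _).1 h7
            exact h3 (h6.symm.trans h8)
          · intro h6
            have h7 := (heq _ _).2 h6
            apply h3
            rw [← h7, h5, h6]

/-- apply a permutation of the components -/
def move (π : ℕ × ℕ ≃ ℕ × ℕ) : El ≃ El where
  toFun u := match u with
    | .y c n => .y (π c) n
    | .x c n => .x (π c) n
    | .z c n => .z (π c) n
  invFun u := match u with
    | .y c n => .y (π.symm c) n
    | .x c n => .x (π.symm c) n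
    | .z c n => .z (π.symm c) n
  left_inv u := by cases u <;> simp
  right_inv u := by cases u <;> simp

theorem move_le {s t : ℕ → ℕ → Bool} {π : ℕ × ℕ ≃ ℕ × ℕ} (h : ∀ c, t (π c).1 = s c.1)
    (a b : El) : lt' t (move π a) (move π b) ↔ lt' s a b := by
  cases a <;> cases b <;> simp only [lt', move, Equiv.coe_fn_mk, π.injective.eq_iff, h]

theorem hom_ord (s : ℕ → ℕ → Bool) : @ElemHomogeneous El (ord s) := by
  let _ := ord s
  intro n a b hab
  obtain ⟨π, hπ1, hπ2⟩ := perm_ext (fun c : ℕ × ℕ => s c.1) (fun i => cm (a i))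
    (fun i => cm (b i)) (by
      intro i
      funext m
      have h1 := hab.one (Bit_D1 m) i
      rw [bit_iff, bit_iff] at h1
      rw [Bool.eq_iff_iff]
      exact h1) (by
      intro i j
      have h1 := hab.two SC_D2 i j
      rw [sc_iff, sc_iff] at h1
      exact h1)
  refine ⟨⟨move π, ?_⟩, ?_⟩
  · intro u v
    exact move_le hπ1 u v
  · intro i
    show move π (a i) = b i
    have hc : π (cm (a i)) = cm (b i) := hπ2 i
    rcases ha : a i with ⟨c, m⟩ | ⟨c, m⟩ | ⟨c, m⟩
    · have h1 := (hab.one (Yp_D1 m) i).1 (by rw [ha, yp_iff]; exact ⟨c, rfl⟩)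
      rw [yp_iff] at h1
      obtain ⟨d, hd⟩ := h1
      rw [ha, hd] at hc
      rw [hd]
      show El.y (π c) m = _
      have hc' : π c = d := hc
      rw [hc']
    · have h1 := (hab.one (Xp_D1 m) i).1 (by rw [ha, xp_iff]; exact ⟨c, rfl⟩)
      rw [xp_iff] at h1
      obtain ⟨d, hd⟩ := h1
      rw [ha, hd] at hc
      rw [hd]
      show El.x (π c) m = _
      have hc' : π c = d := hc
      rw [hc']
    · have h2 : ∃ d, b i = .z d m := by
        by_cases hb : s c.1 m = true
        · have h1 := (hab.one (Zb_D1 m) i).1 (by rw [ha, zb_iff]; exact ⟨c, rfl, hb⟩)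
          rw [zb_iff] at h1
          obtain ⟨d, hd, _⟩ := h1
          exact ⟨d, hd⟩
        · rw [Bool.not_eq_true] at hb
          have h1 := (hab.one (Za_D1 m) i).1 (by rw [ha, za_iff]; exact ⟨c, rfl, hb⟩)
          rw [za_iff] at h1
          obtain ⟨d, hd, _⟩ := h1
          exact ⟨d, hd⟩
      obtain ⟨d, hd⟩ := h2
      rw [ha, hd] at hc
      rw [hd]
      show El.z (π c) m = _
      have hc' : π c = d := hc
      rw [hc']

end Pool.Agent.H74EH
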