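import Pool.Agent.H74EH.Unique

namespace Pool.Agent.H74EH

open FirstOrder FirstOrder.Language Classical

attribute [local instance] FirstOrder.Language.orderStructure

variable {M : Type} [PartialOrder M]

/-- definable relations all of whose fibres are finite -/
def FinRel (D : M → M → Prop) : Prop := D2 D ∧ ∀ x : M, {y | D x y}.Finite

/-- interalgebraic elements -/
def alg (x y : M) : Prop :=
  (∃ D : M → M → Prop, FinRel D ∧ D x y) ∧ ∃ D : M → M → Prop, FinRel D ∧ D y x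

theorem Dfn.ball {α : Type} {ι : Type} (S : Finset ι) (D : ι → (α → M) → Prop)
    (h : ∀ d ∈ S, Dfn (D d)) : Dfn (fun v => ∀ d ∈ S, D d v) := by
  induction S using Finset.induction_on with
  | empty => exact ⟨⊤, fun v => by simp⟩
  | insert d S hd ih =>
    have h1 := (h d (Finset.mem_insert_self _ _)).and
      (ih (fun e he => h e (Finset.mem_insert_of_mem he)))
    exact h1.congr (fun v => by simp)

theorem Dfn.transfer {n : ℕ} {a b : Fin n → M} (h : TE a b) {D : (Fin n → M) → Prop}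
    (hD : Dfn D) : D a → D b := by
  obtain ⟨φ, hφ⟩ := hD
  intro h1
  rw [← hφ] at h1 ⊢
  exact (h φ).1 h1

theorem step_ext0 {R : M → M → Prop} (hlf : FinRel R) {m : ℕ} {a b : Fin m → M}
    (h : TE a b) (k : Fin m) (c : M) (hc : R (a k) c) :
    ∃ d : M, R (b k) d ∧ TE (Fin.snoc a c : Fin (m + 1) → M) (Fin.snoc b d) := by
  by_contra hcon
  have h1 : ∀ d : M, ∃ φ : Language.order.Formula (Fin (m + 1)), R (b k) d →
      (φ.Realize (Fin.snoc a c : Fin (m + 1) → M) ∧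
        ¬ φ.Realize (Fin.snoc b d : Fin (m + 1) → M)) := by
    intro d
    by_cases hd : R (b k) d
    · have h2 : ¬ TE (Fin.snoc a c : Fin (m + 1) → M) (Fin.snoc b d) :=
        fun h3 => hcon ⟨d, hd, h3⟩
      unfold TE at h2
      rw [not_forall] at h2
      obtain ⟨φ, hφ⟩ := h2
      by_cases h3 : φ.Realize (Fin.snoc a c : Fin (m + 1) → M)
      · exact ⟨φ, fun _ => ⟨h3, fun h4 => hφ ⟨fun _ => h4, fun _ => h3⟩⟩⟩
      · refine ⟨φ.not, fun _ => ?_⟩
        rw [Formula.realize_not, Formula.realize_not, not_not]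
        refine ⟨h3, ?_⟩
        by_contra h4
        exact hφ ⟨fun h5 => absurd h5 h3, fun h5 => absurd h5 h4⟩
    · exact ⟨⊤, fun h2 => absurd h2 hd⟩
  choose φ hφ using h1
  have hD : Dfn (fun v : Fin m → M => ∃ x, R (v k) x ∧
      ∀ d ∈ (hlf.2 (b k)).toFinset, (φ d).Realize (Fin.snoc v x : Fin (m + 1) → M)) := by
    refine Dfn.ex (D := fun v x => R (v k) x ∧
      ∀ d ∈ (hlf.2 (b k)).toFinset, (φ d).Realize (Fin.snoc v x : Fin (m + 1) → M)) ?_
    refine (hlf.1 _ _ _).and (Dfn.ball _ _ ?_)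
    intro d _
    refine ⟨(φ d).relabel (Fin.lastCases (Sum.inr 0) (fun i => Sum.inl i) :
      Fin (m + 1) → Fin m ⊕ Fin 1), ?_⟩
    intro v
    rw [Formula.realize_relabel]
    have : (v ∘ (Fin.lastCases (Sum.inr 0) (fun i => Sum.inl i) :
        Fin (m + 1) → Fin m ⊕ Fin 1)) =
        (Fin.snoc (fun i => v (Sum.inl i)) (v (Sum.inr 0)) : Fin (m + 1) → M) := by
      funext i
      induction i using Fin.lastCases with
      | last => simp
      | cast i => simp
    rw [this]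
  have h2 := Dfn.transfer h hD ⟨c, hc, fun d hd => ((hφ d) (by
    rw [Set.Finite.mem_toFinset] at hd; exact hd)).1⟩
  obtain ⟨x, hx1, hx2⟩ := h2
  exact (hφ x hx1).2 (hx2 x (by rw [Set.Finite.mem_toFinset]; exact hx1))

theorem step_ext {m : ℕ} {a b : Fin m → M} (h : TE a b)
    (k : Fin m) (c : M) (hc : alg (a k) c) :
    ∃ d : M, alg (b k) d ∧ TE (Fin.snoc a c : Fin (m + 1) → M) (Fin.snoc b d) := by
  obtain ⟨⟨R, hR, hR1⟩, ⟨R', hR', hR1'⟩⟩ := hc
  obtain ⟨d, h1, h2⟩ := step_ext0 hR h k c hR1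
  refine ⟨d, ⟨⟨R, hR, h1⟩, ⟨R', hR', ?_⟩⟩, h2⟩
  have h3 := Dfn.transfer h2 (hR'.1 (Fin (m + 1)) (Fin.last m) k.castSucc)
    (by rw [Fin.snoc_last, Fin.snoc_castSucc]; exact hR1')
  rw [Fin.snoc_last, Fin.snoc_castSucc] at h3
  exact h3

/-- finite sets of pairs contained in an elementary map -/
def TF (f : Finset (M × M)) : Prop :=
  ∃ (m : ℕ) (a b : Fin m → M), TE a b ∧ ∀ p ∈ f, ∃ k, p = (a k, b k)

theorem TF.mono {f g : Finset (M × M)} (h : TF g) (hfg : f ⊆ g) : TF f := by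
  obtain ⟨m, a, b, h1, h2⟩ := h
  exact ⟨m, a, b, h1, fun p hp => h2 p (hfg hp)⟩

theorem TF.swap {f : Finset (M × M)} (h : TF f) : TF (f.image Prod.swap) := by
  obtain ⟨m, a, b, h1, h2⟩ := h
  refine ⟨m, b, a, h1.symm, ?_⟩
  intro p hp
  rw [Finset.mem_image] at hp
  obtain ⟨q, hq, rfl⟩ := hp
  obtain ⟨k, rfl⟩ := h2 q hq
  exact ⟨k, rfl⟩

theorem TF.key {f : Finset (M × M)} (h : TF f) {p q : M × M} (hp : p ∈ f) (hq : q ∈ f) :
    (p.1 = q.1 ↔ p.2 = q.2) ∧ (p.1 ≤ q.1 ↔ p.2 ≤ q.2) := by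
  obtain ⟨m, a, b, h1, h2⟩ := h
  obtain ⟨i, rfl⟩ := h2 p hp
  obtain ⟨j, rfl⟩ := h2 q hq
  exact ⟨h1.eq i j, h1.le i j⟩

/-- connectedness by interalgebraic steps -/
def conn (x y : M) : Prop := Relation.ReflTransGen alg x y

theorem TF.forth {f : Finset (M × M)} (h : TF f)
    {p : M × M} (hp : p ∈ f) {c : M} (hc : conn p.1 c) :
    ∃ d, conn p.2 d ∧ TF (insert (c, d) f) := by
  induction hc with
  | refl =>
    refine ⟨p.2, Relation.ReflTransGen.refl, ?_⟩
    rw [Finset.insert_eq_of_mem hp]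
    exact h
  | @tail x c _ h2 ih =>
    obtain ⟨y, hy, m, a, b, h3, h4⟩ := ih
    obtain ⟨k, hk⟩ := h4 (x, y) (Finset.mem_insert_self _ _)
    rw [Prod.mk.injEq] at hk
    obtain ⟨rfl, rfl⟩ := hk
    obtain ⟨d, hd1, hd2⟩ := step_ext h3 k c h2
    refine ⟨d, hy.tail hd1, m + 1, _, _, hd2, ?_⟩
    intro q hq
    rw [Finset.mem_insert] at hq
    rcases hq with rfl | hq
    · exact ⟨Fin.last m, by rw [Fin.snoc_last, Fin.snoc_last]⟩
    · obtain ⟨j, rfl⟩ := h4 q (Finset.mem_insert_of_mem hq)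
      exact ⟨j.castSucc, by rw [Fin.snoc_castSucc, Fin.snoc_castSucc]⟩

theorem conn_symm {x y : M} (h : conn x y) : conn y x := by
  induction h with
  | refl => exact Relation.ReflTransGen.refl
  | tail _ h2 ih => exact Relation.ReflTransGen.head ⟨h2.2, h2.1⟩ ih

theorem TF.back {f : Finset (M × M)} (h : TF f)
    {p : M × M} (hp : p ∈ f) {d : M} (hd : conn p.2 d) :
    ∃ c, conn p.1 c ∧ TF (insert (c, d) f) := by
  obtain ⟨c, h1, h2⟩ := TF.forth h.swap (p := p.swap)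
    (Finset.mem_image_of_mem _ hp) (c := d) hd
  refine ⟨c, h1, h2.swap.mono ?_⟩
  intro q hq
  rw [Finset.mem_insert] at hq
  rw [Finset.mem_image]
  rcases hq with rfl | hq
  · exact ⟨(d, c), Finset.mem_insert_self _ _, rfl⟩
  · exact ⟨q.swap, Finset.mem_insert_of_mem (Finset.mem_image_of_mem _ hq), rfl⟩

variable (M) in
def cSetoid : Setoid M where
  r := conn
  iseqv := ⟨fun _ => Relation.ReflTransGen.refl, conn_symm, fun h h' => h.trans h'⟩

abbrev Cp (M : Type) [PartialOrder M] : Type := Quotient (cSetoid M)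

def mkC (x : M) : Cp M := Quotient.mk (cSetoid M) x

theorem mkC_eq {x y : M} : mkC x = mkC y ↔ conn x y := Quotient.eq (r := cSetoid M)

theorem back_forth' {M N : Type} (u : ℕ → M) (w : ℕ → N) (Q : Finset (M × N) → Prop) (h0 : Q ∅)
    (hf : ∀ f, Q f → ∀ a, ∃ b, ∀ g, (∀ p ∈ g, p = (a, b) ∨ p ∈ f) → Q g)
    (hb : ∀ f, Q f → ∀ b, ∃ a, ∀ g, (∀ p ∈ g, p = (a, b) ∨ p ∈ f) → Q g) :
    ∃ s : ℕ → Finset (M × N), (∀ n, Q (s n)) ∧ Monotone s ∧ (∀ k, ∃ b n, (u k, b) ∈ s n) ∧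
      (∀ k, ∃ a n, (a, w k) ∈ s n) := by
  refine back_forth u w Q h0 ?_ ?_
  · intro f hf' a
    obtain ⟨b, hb'⟩ := hf f hf' a
    exact ⟨b, hb' _ (fun p hp => Finset.mem_insert.1 hp)⟩
  · intro f hf' b
    obtain ⟨a, hb'⟩ := hb f hf' b
    exact ⟨a, hb' _ (fun p hp => Finset.mem_insert.1 hp)⟩

/-- isomorphisms between components from elementary maps -/
theorem comp_iso [Countable M] {f0 : Finset (M × M)}
    (h : TF f0) {p : M × M} (hp : p ∈ f0) :
    ∃ ι : {x : M // mkC x = mkC p.1} ≃o {x : M // mkC x = mkC p.2},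
      ∀ q ∈ f0, ∀ h : mkC q.1 = mkC p.1, (ι ⟨q.1, h⟩).1 = q.2 := by
  have : Nonempty {x : M // mkC x = mkC p.1} := ⟨⟨p.1, rfl⟩⟩
  have : Nonempty {x : M // mkC x = mkC p.2} := ⟨⟨p.2, rfl⟩⟩
  obtain ⟨u, hu⟩ := exists_surjective_nat {x : M // mkC x = mkC p.1}
  obtain ⟨w, hw⟩ := exists_surjective_nat {x : M // mkC x = mkC p.2}
  let pr : {x : M // mkC x = mkC p.1} × {x : M // mkC x = mkC p.2} → M × M :=
    fun z => (z.1.1, z.2.1)
  obtain ⟨s, hs, hmono, hF, hB⟩ := back_forth' u w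
    (fun g => TF (f0 ∪ g.image pr)) (by simpa using h) (by
      intro g hg c
      obtain ⟨d, h1, h2⟩ := TF.forth hg (Finset.mem_union_left _ hp) (c := c.1)
        (mkC_eq.1 c.2.symm)
      refine ⟨⟨d, (mkC_eq.2 h1).symm⟩, ?_⟩
      intro g' hg'
      refine h2.mono ?_
      intro q hq
      rw [Finset.mem_union, Finset.mem_image] at hq
      rcases hq with hq | ⟨z, hz, rfl⟩
      · exact Finset.mem_insert_of_mem (Finset.mem_union_left _ hq)
      · rcases hg' z hz with rfl | hz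
        · exact Finset.mem_insert_self _ _
        · exact Finset.mem_insert_of_mem
            (Finset.mem_union_right _ (Finset.mem_image_of_mem _ hz))) (by
      intro g hg d
      obtain ⟨c, h1, h2⟩ := TF.back hg (Finset.mem_union_left _ hp) (d := d.1)
        (mkC_eq.1 d.2.symm)
      refine ⟨⟨c, (mkC_eq.2 h1).symm⟩, ?_⟩
      intro g' hg'
      refine h2.mono ?_
      intro q hq
      rw [Finset.mem_union, Finset.mem_image] at hq
      rcases hq with hq | ⟨z, hz, rfl⟩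
      · exact Finset.mem_insert_of_mem (Finset.mem_union_left _ hq)
      · rcases hg' z hz with rfl | hz
        · exact Finset.mem_insert_self _ _
        · exact Finset.mem_insert_of_mem
            (Finset.mem_union_right _ (Finset.mem_image_of_mem _ hz)))
  have hF' : ∀ x, ∃ y n, (x, y) ∈ s n := by
    intro x
    obtain ⟨k, rfl⟩ := hu x
    exact hF k
  have hB' : ∀ y, ∃ x n, (x, y) ∈ s n := by
    intro y
    obtain ⟨k, rfl⟩ := hw y
    exact hB k
  choose F nF hF using hF'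
  have key : ∀ p q, (∃ n, p ∈ s n) → (∃ n, q ∈ s n) →
      (p.1.1 = q.1.1 ↔ p.2.1 = q.2.1) ∧ (p.1.1 ≤ q.1.1 ↔ p.2.1 ≤ q.2.1) := by
    rintro p q ⟨n, hn⟩ ⟨m, hm⟩
    exact TF.key (hs (max n m))
      (Finset.mem_union_right _ (Finset.mem_image_of_mem pr (hmono (le_max_left _ _) hn)))
      (Finset.mem_union_right _ (Finset.mem_image_of_mem pr (hmono (le_max_right _ _) hm)))
  have hinj : Function.Injective F := by
    intro a a' haa
    exact Subtype.ext ((key (a, F a) (a', F a') ⟨_, hF a⟩ ⟨_, hF a'⟩).1.2 (by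
      show (F a).1 = (F a').1
      rw [haa]))
  have hsurj : Function.Surjective F := by
    intro b
    obtain ⟨a, n, h1⟩ := hB' b
    exact ⟨a, Subtype.ext ((key (a, F a) (a, b) ⟨_, hF a⟩ ⟨n, h1⟩).1.1 rfl)⟩
  refine ⟨⟨Equiv.ofBijective F ⟨hinj, hsurj⟩, ?_⟩, ?_⟩
  · intro a a'
    exact (key (a, F a) (a', F a') ⟨_, hF a⟩ ⟨_, hF a'⟩).2.symm
  · intro q hq hqp
    have h1 := TF.key (hs (nF ⟨q.1, hqp⟩)) (p := (q.1, (F ⟨q.1, hqp⟩).1)) (q := q)
      (Finset.mem_union_right _ (Finset.mem_image_of_mem pr (hF ⟨q.1, hqp⟩)))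
      (Finset.mem_union_left _ hq)
    exact h1.1.1 rfl

/-- isomorphism type of a component -/
def lab (c : Cp M) : Set (Cp M) :=
  {d | Nonempty ({x : M // mkC x = c} ≃o {x : M // mkC x = d})}

theorem lab_eq {c d : Cp M} :
    lab c = lab d ↔ Nonempty ({x : M // mkC x = c} ≃o {x : M // mkC x = d}) := by
  constructor
  · intro h
    have h1 : d ∈ lab d := ⟨OrderIso.refl _⟩
    rw [← h] at h1
    exact h1
  · rintro ⟨e⟩
    ext f
    constructor
    · rintro ⟨g⟩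
      exact ⟨e.symm.trans g⟩
    · rintro ⟨g⟩
      exact ⟨e.trans g⟩

theorem locfin_EH [Countable M] (hcmp : ∀ x y : M, x ≤ y → conn x y) : ElemHomogeneous M := by
  intro n a b hab
  let f0 : Finset (M × M) := Finset.univ.image (fun i => (a i, b i))
  have hmem : ∀ i, (a i, b i) ∈ f0 := fun i =>
    Finset.mem_image_of_mem (fun i => (a i, b i)) (Finset.mem_univ i)
  have hf0 : TF f0 := ⟨n, a, b, hab, fun p hp => by
    obtain ⟨i, _, rfl⟩ := Finset.mem_image.1 hp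
    exact ⟨i, rfl⟩⟩
  have hiso := fun i => comp_iso hf0 (hmem i)
  have h1 : ∀ i j, mkC (a i) = mkC (a j) → mkC (b i) = mkC (b j) := by
    intro i j hij
    obtain ⟨d, hd1, hd2⟩ := TF.forth hf0 (hmem i) (c := a j) (mkC_eq.1 hij)
    have h3 : d = b j :=
      (hd2.key (Finset.mem_insert_self _ _) (Finset.mem_insert_of_mem (hmem j))).1.1 rfl
    subst h3
    exact mkC_eq.2 hd1
  have h2 : ∀ i j, mkC (b i) = mkC (b j) → mkC (a i) = mkC (a j) := by
    intro i j hij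
    obtain ⟨c, hc1, hc2⟩ := TF.back hf0 (hmem i) (d := b j) (mkC_eq.1 hij)
    have h3 : c = a j :=
      (hc2.key (Finset.mem_insert_self _ _) (Finset.mem_insert_of_mem (hmem j))).1.2 rfl
    subst h3
    exact mkC_eq.2 hc1
  obtain ⟨π, hπ1, hπ2⟩ := perm_ext lab (fun i => mkC (a i)) (fun i => mkC (b i))
    (fun i => lab_eq.2 ⟨(hiso i).choose⟩) (fun i j => ⟨h1 i j, h2 i j⟩)
  have h3 : ∀ c : Cp M, ∃ ι : {x : M // mkC x = c} ≃o {x : M // mkC x = π c},
      ∀ i, ∀ h : mkC (a i) = c, (ι ⟨a i, h⟩).1 = b i := by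
    intro c
    by_cases hc : ∃ i, mkC (a i) = c
    · obtain ⟨i, rfl⟩ := hc
      obtain ⟨ι, hι⟩ := hiso i
      have h4 : π (mkC (a i)) = mkC (b i) := hπ2 i
      rw [h4]
      exact ⟨ι, fun j hj => hι (a j, b j) (hmem j) hj⟩
    · obtain ⟨ι⟩ := lab_eq.1 (hπ1 c).symm
      exact ⟨ι, fun i hi => absurd ⟨i, hi⟩ hc⟩
  choose ι hι using h3
  let F : M → M := fun x => (ι (mkC x) ⟨x, rfl⟩).1
  have hFc : ∀ x, mkC (F x) = π (mkC x) := fun x => (ι (mkC x) ⟨x, rfl⟩).2
  have hFi : ∀ (y : M) (c : Cp M) (h : mkC y = c), F y = (ι c ⟨y, h⟩).1 := by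
    rintro y c rfl
    rfl
  have hFle : ∀ x y, F x ≤ F y ↔ x ≤ y := by
    intro x y
    by_cases hxy : mkC x = mkC y
    · rw [hFi y (mkC x) hxy.symm, hFi x (mkC x) rfl]
      exact (ι (mkC x)).le_iff_le
    · constructor
      · intro h
        exfalso
        apply hxy
        apply π.injective
        rw [← hFc, ← hFc]
        exact mkC_eq.2 (hcmp _ _ h)
      · intro h
        exact absurd (mkC_eq.2 (hcmp _ _ h)) hxy
  have hinj : Function.Injective F := by
    intro x y hxy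
    exact le_antisymm ((hFle x y).1 hxy.le) ((hFle y x).1 hxy.ge)
  have hsurj : Function.Surjective F := by
    intro y
    obtain ⟨z, hz⟩ := (ι (π.symm (mkC y))).surjective ⟨y, (π.apply_symm_apply _).symm⟩
    refine ⟨z.1, ?_⟩
    rw [hFi z.1 _ z.2]
    show (ι (π.symm (mkC y)) z).1 = y
    rw [hz]
  refine ⟨⟨Equiv.ofBijective F ⟨hinj, hsurj⟩, ?_⟩, ?_⟩
  · intro x y
    exact hFle x y
  · intro i
    exact hι (mkC (a i)) i rfl

/-- at most `n` elements -/
def Few {X : Type} : ℕ → (X → Prop) → Prop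
  | 0, S => ∀ w, ¬ S w
  | n + 1, S => ∃ z, Few n (fun w => S w ∧ ¬ w = z)

theorem Few.mono {X : Type} : ∀ (n : ℕ) {S T : X → Prop}, Few n S → (∀ w, T w → S w) → Few n T
  | 0, _, _, h, hST => fun w hw => h w (hST w hw)
  | n + 1, _, _, ⟨z, h⟩, hST => ⟨z, Few.mono n h (fun w hw => ⟨hST w hw.1, hw.2⟩)⟩

theorem Few.finite {X : Type} : ∀ (n : ℕ) {S : X → Prop}, Few n S → {w | S w}.Finite
  | 0, S, h => by
      have h1 : {w | S w} = ∅ := by
        ext w
        exact ⟨fun hw => absurd hw (h w), fun hw => absurd hw (Set.notMem_empty w)⟩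
      rw [h1]
      exact Set.finite_empty
  | n + 1, S, ⟨z, h⟩ => by
      have h1 := Few.finite n h
      refine (h1.insert z).subset (fun w hw => ?_)
      by_cases hwz : w = z
      · exact Or.inl hwz
      · exact Or.inr ⟨hw, hwz⟩

theorem Few.of_finite {X : Type} {S : Set X} (hS : S.Finite) : ∃ n, Few n (fun w => w ∈ S) := by
  induction S, hS using Set.Finite.induction_on with
  | empty => exact ⟨0, fun w hw => hw⟩
  | @insert a S _ _ ih =>
    obtain ⟨n, hn⟩ := ih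
    refine ⟨n + 1, a, Few.mono n hn ?_⟩
    rintro w ⟨hw1 | hw1, hw2⟩
    · exact absurd hw1 hw2
    · exact hw1

theorem Few.dfn : ∀ (n : ℕ) {α : Type} {D : (α → M) → M → Prop},
    Dfn (fun v : α ⊕ Fin 1 → M => D (fun i => v (Sum.inl i)) (v (Sum.inr 0))) →
    Dfn (fun v : α → M => Few n (D v))
  | 0, _, D, h => Dfn.all (D := fun v x => ¬ D v x) h.not
  | n + 1, α, D, h => by
      refine Dfn.ex (D := fun v z => Few n (fun w => D v w ∧ ¬ w = z)) ?_
      refine Few.dfn n (D := fun (v : α ⊕ Fin 1 → M) w =>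
        D (fun i => v (Sum.inl i)) w ∧ ¬ w = v (Sum.inr 0)) ?_
      refine Dfn.and ?_ (Dfn.eq _ _).not
      obtain ⟨φ, hφ⟩ := h
      refine ⟨φ.relabel (Sum.elim (fun i => Sum.inl (Sum.inl i)) (fun j => Sum.inr j)), ?_⟩
      intro v
      rw [Formula.realize_relabel, hφ]
      rfl

/-- `y` is algebraic over `x`: it lies in a finite set definable with the parameter `x` -/
def AlgOver (x y : M) : Prop :=
  ∃ φ : Language.order.Formula (Fin 2), φ.Realize ![x, y] ∧ {z | φ.Realize ![x, z]}.Finite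

theorem AlgOver.finRel {x y : M} (h : AlgOver x y) : ∃ D : M → M → Prop, FinRel D ∧ D x y := by
  obtain ⟨φ, h1, h2⟩ := h
  obtain ⟨n, hn⟩ := Few.of_finite h2
  refine ⟨fun u v => φ.Realize ![u, v] ∧ Few n (fun w => φ.Realize ![u, w]), ⟨?_, ?_⟩, h1, hn⟩
  · intro α i j
    refine Dfn.and ⟨φ.relabel ![i, j], ?_⟩
      (Few.dfn n (D := fun (v : α → M) w => φ.Realize ![v i, w])
        ⟨φ.relabel ![Sum.inl i, Sum.inr 0], ?_⟩)
    · intro v
      rw [Formula.realize_relabel]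
      have h3 : v ∘ ![i, j] = ![v i, v j] := by
        funext k
        fin_cases k <;> rfl
      rw [h3]
    · intro v
      rw [Formula.realize_relabel]
      have h3 : v ∘ ![Sum.inl i, Sum.inr 0] = ![v (Sum.inl i), v (Sum.inr 0)] := by
        funext k
        fin_cases k <;> rfl
      rw [h3]
  · intro u
    by_cases hu : Few n (fun w => φ.Realize ![u, w])
    · exact (Few.finite n hu).subset (fun w hw => hw.1)
    · exact Set.finite_empty.subset (fun w hw => absurd hw.2 hu)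

/-- if comparable elements are interalgebraic then the order is elementarily homogeneous -/
theorem acl_EH [Countable M] (h : ∀ x y : M, x ≤ y → AlgOver x y ∧ AlgOver y x) :
    ElemHomogeneous M :=
  locfin_EH (fun x y hxy => Relation.ReflTransGen.single
    ⟨(h x y hxy).1.finRel, (h x y hxy).2.finRel⟩)

theorem cov_D2 : D2 (fun x y : M => x ⋖ y) := by
  intro α i j
  have h1 : Dfn (fun v : α → M => ∀ z, ¬ ((v i ≤ z ∧ ¬ z ≤ v i) ∧ (z ≤ v j ∧ ¬ v j ≤ z))) :=
    Dfn.all (D := fun v z => ¬ ((v i ≤ z ∧ ¬ z ≤ v i) ∧ (z ≤ v j ∧ ¬ v j ≤ z)))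
      ((((Dfn.le _ _).and (Dfn.le _ _).not).and ((Dfn.le _ _).and (Dfn.le _ _).not)).not)
  refine ((((Dfn.le i j).and (Dfn.le j i).not)).and h1).congr ?_
  intro v
  constructor
  · rintro ⟨h2, h3⟩
    exact ⟨lt_iff_le_not_ge.2 h2, fun z hz1 hz2 =>
      h3 z ⟨lt_iff_le_not_ge.1 hz1, lt_iff_le_not_ge.1 hz2⟩⟩
  · rintro ⟨h2, h3⟩
    exact ⟨lt_iff_le_not_ge.1 h2, fun z hz =>
      h3 (lt_iff_le_not_ge.2 hz.1) (lt_iff_le_not_ge.2 hz.2)⟩

theorem D2.swap {R : M → M → Prop} (h : D2 R) : D2 (fun x y => R y x) :=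
  fun α i j => h α j i

theorem hasse_EH [Countable M] (hI : ∀ x y : M, (Set.Icc x y).Finite)
    (hC : ∀ x : M, {y | x ⋖ y}.Finite ∧ {y | y ⋖ x}.Finite) : ElemHomogeneous M := by
  apply locfin_EH
  intro x y hxy
  let _ := LocallyFiniteOrder.ofFiniteIcc hI
  have h1 : Relation.ReflTransGen (· ⋖ ·) x y := le_iff_reflTransGen_covBy.1 hxy
  have h2 : ∀ u v : M, u ⋖ v → alg u v := fun u v huv =>
    ⟨⟨fun u v => u ⋖ v, ⟨cov_D2, fun x => (hC x).1⟩, huv⟩,
      ⟨fun u v => v ⋖ u, ⟨cov_D2.swap, fun x => (hC x).2⟩, huv⟩⟩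
  induction h1 with
  | refl => exact Relation.ReflTransGen.refl
  | tail h3 h4 ih => exact (ih (le_iff_reflTransGen_covBy.2 h3)).tail (h2 _ _ h4)

end Pool.Agent.H74EH
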