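import Pool.Agent.H74EH.Defs

/-!
The partial order attached to a sequence of infinite binary sequences.
-/

namespace Pool.Agent.H74EH

inductive El : Type
  | y (c : ℕ × ℕ) (n : ℕ) : El
  | x (c : ℕ × ℕ) (n : ℕ) : El
  | z (c : ℕ × ℕ) (n : ℕ) : El

def El.code : El → (ℕ × ℕ) × ℕ × ℕ
  | .y c n => (c, 0, n)
  | .x c n => (c, 1, n)
  | .z c n => (c, 2, n)

theorem El.code_inj : Function.Injective El.code := by
  intro a b h
  cases a <;> cases b <;> simp_all [El.code]

instance : Countable El := El.code_inj.countable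

instance : Infinite El := Infinite.of_injective (fun n : ℕ => El.y (0, 0) n) (by
  intro a b h
  simpa using h)

/-- the order relation: bit `m` of the sequence of the component decides what lies below `z c m` -/
def lt' (s : ℕ → ℕ → Bool) : El → El → Prop
  | .y c n, .y d m => c = d ∧ n = m
  | .y c n, .x d m => c = d ∧ n ≤ m
  | .y c n, .z d m => c = d ∧ (n = m ∨ (n ≤ m ∧ s d.1 m = true))
  | .x _ _, .y _ _ => False
  | .x c n, .x d m => c = d ∧ n ≤ m
  | .x c n, .z d m => c = d ∧ n ≤ m ∧ s d.1 m = true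
  | .z _ _, .y _ _ => False
  | .z _ _, .x _ _ => False
  | .z c n, .z d m => c = d ∧ n = m

/-- the partial order attached to `s` -/
@[reducible] def ord (s : ℕ → ℕ → Bool) : PartialOrder El where
  le := lt' s
  le_refl a := by cases a <;> simp [lt']
  le_trans a b c hab hbc := by
    cases a <;> cases b <;> cases c <;> simp only [lt'] at hab hbc ⊢ <;>
      first
      | exact hab.elim
      | exact hbc.elim
      | (obtain ⟨rfl, h1⟩ := hab
         obtain ⟨rfl, h2⟩ := hbc
         refine ⟨rfl, ?_⟩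
         grind)
  le_antisymm a b hab hba := by
    cases a <;> cases b <;> simp only [lt'] at hab hba <;>
      first
      | exact hab.elim
      | exact hba.elim
      | (obtain ⟨rfl, h1⟩ := hab
         obtain ⟨_, h2⟩ := hba
         congr 1 <;> omega)

def cm : El → ℕ × ℕ
  | .y c _ => c
  | .x c _ => c
  | .z c _ => c

section Facts

variable (s : ℕ → ℕ → Bool)

theorem le_iff (a b : El) : (ord s).le a b ↔ lt' s a b := Iff.rfl

theorem lt'_cm {a b : El} (h : lt' s a b) : cm a = cm b := by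
  cases a <;> cases b <;> simp only [lt'] at h <;> first | exact h.elim | exact h.1

theorem mn_y (c : ℕ × ℕ) (n : ℕ) : @Mn El (ord s) (.y c n) := by
  intro v hv
  have h : lt' s v (.y c n) := hv
  cases v <;> simp only [lt'] at h
  rw [h.1, h.2]

theorem not_mn_x (c : ℕ × ℕ) (n : ℕ) : ¬ @Mn El (ord s) (.x c n) := by
  intro h
  have h1 := h (.y c 0) (show lt' s _ _ from ⟨rfl, Nat.zero_le _⟩)
  cases h1

theorem not_mn_z (c : ℕ × ℕ) (n : ℕ) : ¬ @Mn El (ord s) (.z c n) := by
  intro h
  have h1 := h (.y c n) (show lt' s _ _ from ⟨rfl, Or.inl rfl⟩)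
  cases h1

theorem not_mx_y (c : ℕ × ℕ) (n : ℕ) : ¬ @Mx El (ord s) (.y c n) := by
  intro h
  have h1 := h (.x c n) (show lt' s _ _ from ⟨rfl, le_rfl⟩)
  cases h1

theorem not_mx_x (c : ℕ × ℕ) (n : ℕ) : ¬ @Mx El (ord s) (.x c n) := by
  intro h
  have h1 := h (.x c (n + 1)) (show lt' s _ _ from ⟨rfl, by omega⟩)
  simp at h1

theorem mx_z (c : ℕ × ℕ) (n : ℕ) : @Mx El (ord s) (.z c n) := by
  intro v hv
  have h : lt' s (.z c n) v := hv
  cases v <;> simp only [lt'] at h
  rw [h.1, h.2]

theorem cov_x (c : ℕ × ℕ) (m l : ℕ) : @Cov El (ord s) (.x c m) (.x c l) ↔ l ≤ m + 1 := by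
  constructor
  · intro h
    by_contra hcon
    rcases h (.x c (m + 1)) (show lt' s _ _ from ⟨rfl, by omega⟩) with h1 | h1 | h1
    · simp at h1; omega
    · exact not_mn_x s _ _ h1
    · have h2 : lt' s (.x c (m + 1)) (.x c m) := h1
      have h3 := h2.2
      omega
  · intro h v hv
    have h1 : lt' s v (.x c l) := hv
    cases v with
    | y d n => exact Or.inr (Or.inl (mn_y s d n))
    | x d n =>
      obtain ⟨rfl, h2⟩ := h1
      by_cases h3 : n = l
      · exact Or.inl (by rw [h3])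
      · exact Or.inr (Or.inr (show lt' s _ _ from ⟨rfl, by omega⟩))
    | z d n => exact h1.elim

theorem cov_z (c : ℕ × ℕ) (m l : ℕ) (hb : s c.1 l = true) :
    @Cov El (ord s) (.x c m) (.z c l) ↔ l ≤ m := by
  constructor
  · intro h
    by_contra hcon
    rcases h (.x c (m + 1)) (show lt' s _ _ from ⟨rfl, by omega, hb⟩) with h1 | h1 | h1
    · cases h1
    · exact not_mn_x s _ _ h1
    · have h2 : lt' s (.x c (m + 1)) (.x c m) := h1
      have h3 := h2.2
      omega
  · intro h v hv
    have h1 : lt' s v (.z c l) := hv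
    cases v with
    | y d n => exact Or.inr (Or.inl (mn_y s d n))
    | x d n =>
      obtain ⟨rfl, h2, _⟩ := h1
      exact Or.inr (Or.inr (show lt' s _ _ from ⟨rfl, by omega⟩))
    | z d n =>
      obtain ⟨rfl, h2⟩ := h1
      exact Or.inl (by rw [h2])

theorem xp_iff (m : ℕ) : ∀ u : El, @Xp El (ord s) m u ↔ ∃ c, u = .x c m := by
  induction m with
  | zero =>
    intro u
    constructor
    · rintro ⟨h1, h2, h3⟩
      cases u with
      | y c n => exact (h1 (mn_y s c n)).elim
      | z c n => exact (h2 (mx_z s c n)).elim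
      | x c n =>
        by_cases hn : n = 0
        · exact ⟨c, by rw [hn]⟩
        · exfalso
          rcases h3 (.x c 0) (show lt' s _ _ from ⟨rfl, Nat.zero_le _⟩) with h4 | h4
          · simp at h4; omega
          · exact not_mn_x s _ _ h4
    · rintro ⟨c, rfl⟩
      refine ⟨not_mn_x s _ _, not_mx_x s _ _, ?_⟩
      intro v hv
      have h1 : lt' s v (.x c 0) := hv
      cases v with
      | y d n => exact Or.inr (mn_y s d n)
      | x d n =>
        obtain ⟨rfl, h2⟩ := h1
        have : n = 0 := by omega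
        exact Or.inl (by rw [this])
      | z d n => exact h1.elim
  | succ m ih =>
    intro u
    constructor
    · rintro ⟨h1, w, h2, h3, h4, h5⟩
      rw [ih] at h4
      obtain ⟨c, rfl⟩ := h4
      have h6 : lt' s (.x c m) u := h2
      cases u with
      | y d n => exact h6.elim
      | z d n => exact (h1 (mx_z s d n)).elim
      | x d n =>
        obtain ⟨rfl, h7⟩ := h6
        rw [cov_x] at h5
        have h8 : n ≠ m := by rintro rfl; exact h3 rfl
        have : n = m + 1 := by omega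
        exact ⟨c, by rw [this]⟩
    · rintro ⟨c, rfl⟩
      refine ⟨not_mx_x s _ _, .x c m, (show lt' s _ _ from ⟨rfl, by omega⟩), ?_, ?_, ?_⟩
      · simp
      · rw [ih]; exact ⟨c, rfl⟩
      · rw [cov_x]

theorem zb_iff (m : ℕ) (u : El) : @Zb El (ord s) m u ↔ ∃ c, u = .z c m ∧ s c.1 m = true := by
  constructor
  · rintro ⟨h1, w, h2, h3, h4, h5⟩
    rw [xp_iff] at h4
    obtain ⟨c, rfl⟩ := h4
    have h6 : lt' s (.x c m) u := h2
    cases u with
    | y d n => exact h6.elim
    | x d n => exact (not_mx_x s _ _ h1).elim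
    | z d n =>
      obtain ⟨rfl, h7, h8⟩ := h6
      rw [cov_z s c m n h8] at h5
      have : n = m := by omega
      subst this
      exact ⟨c, rfl, h8⟩
  · rintro ⟨c, rfl, h1⟩
    refine ⟨mx_z s _ _, .x c m, (show lt' s _ _ from ⟨rfl, le_rfl, h1⟩), ?_, ?_, ?_⟩
    · simp
    · rw [xp_iff]; exact ⟨c, rfl⟩
    · rw [cov_z s c m m h1]

theorem up_y (m : ℕ) (c : ℕ × ℕ) (n : ℕ) : @Up El (ord s) m (.y c n) ↔ n ≤ m := by
  constructor
  · rintro ⟨w, h1, h2⟩
    rw [xp_iff] at h2
    obtain ⟨d, rfl⟩ := h2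
    have h3 : lt' s (.y c n) (.x d m) := h1
    exact h3.2
  · intro h
    refine ⟨.x c m, (show lt' s _ _ from ⟨rfl, h⟩), ?_⟩
    rw [xp_iff]
    exact ⟨c, rfl⟩

theorem yp_iff (m : ℕ) (u : El) : @Yp El (ord s) m u ↔ ∃ c, u = .y c m := by
  have key : ∀ u : El, @Mn El (ord s) u ↔ ∃ c n, u = .y c n := by
    intro u
    cases u with
    | y c n => exact ⟨fun _ => ⟨c, n, rfl⟩, fun _ => mn_y s c n⟩
    | x c n => exact ⟨fun h => (not_mn_x s c n h).elim, fun ⟨_, _, h⟩ => by cases h⟩
    | z c n => exact ⟨fun h => (not_mn_z s c n h).elim, fun ⟨_, _, h⟩ => by cases h⟩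
  cases m with
  | zero =>
    constructor
    · rintro ⟨h1, h2⟩
      rw [key] at h1
      obtain ⟨c, n, rfl⟩ := h1
      rw [up_y] at h2
      have : n = 0 := by omega
      exact ⟨c, by rw [this]⟩
    · rintro ⟨c, rfl⟩
      exact ⟨mn_y s c 0, by rw [up_y]⟩
  | succ m =>
    constructor
    · rintro ⟨h1, h2, h3⟩
      rw [key] at h1
      obtain ⟨c, n, rfl⟩ := h1
      rw [up_y] at h2 h3
      have : n = m + 1 := by omega
      exact ⟨c, by rw [this]⟩
    · rintro ⟨c, rfl⟩
      exact ⟨mn_y s c _, by rw [up_y], by rw [up_y]; omega⟩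

theorem za_iff (m : ℕ) (u : El) : @Za El (ord s) m u ↔ ∃ c, u = .z c m ∧ s c.1 m = false := by
  constructor
  · rintro ⟨h1, h2, h3, v, h4, h5⟩
    rw [yp_iff] at h5
    obtain ⟨c, rfl⟩ := h5
    have h6 : lt' s (.y c m) u := h4
    cases u with
    | y d n => exact (not_mx_y s _ _ h1).elim
    | x d n => exact (not_mx_x s _ _ h1).elim
    | z d n =>
      have h7 : s d.1 n = false := by
        by_contra hcon
        rw [Bool.not_eq_false] at hcon
        rcases h3 (.x d 0) (show lt' s _ _ from ⟨rfl, Nat.zero_le _, hcon⟩) with h8 | h8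
        · cases h8
        · exact not_mn_x s _ _ h8
      obtain ⟨rfl, h8⟩ := h6
      rw [h7] at h8
      rcases h8 with h8 | h8
      · subst h8; exact ⟨c, rfl, h7⟩
      · exact absurd h8.2 (by simp)
  · rintro ⟨c, rfl, h1⟩
    refine ⟨mx_z s _ _, not_mn_z s _ _, ?_, .y c m, (show lt' s _ _ from ⟨rfl, Or.inl rfl⟩), ?_⟩
    · intro v hv
      have h2 : lt' s v (.z c m) := hv
      cases v with
      | y d n => exact Or.inr (mn_y s d n)
      | x d n =>
        obtain ⟨rfl, _, h3⟩ := h2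
        rw [h1] at h3
        exact absurd h3 (by simp)
      | z d n =>
        obtain ⟨rfl, h3⟩ := h2
        exact Or.inl (by rw [h3])
    · rw [yp_iff]; exact ⟨c, rfl⟩

theorem exists_y (u : El) : ∃ n, lt' s (.y (cm u) n) u := by
  cases u with
  | y c n => exact ⟨n, rfl, rfl⟩
  | x c n => exact ⟨0, rfl, Nat.zero_le _⟩
  | z c n => exact ⟨n, rfl, Or.inl rfl⟩

theorem sc_iff (u w : El) : @SC El (ord s) u w ↔ cm u = cm w := by
  constructor
  · rintro ⟨u', q, p, h1, h2, h3, h4⟩
    have e1 : cm u' = cm u := lt'_cm s h1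
    have e2 : cm u' = cm p := lt'_cm s h2
    have e3 : cm q = cm p := lt'_cm s h3
    have e4 : cm q = cm w := lt'_cm s h4
    rw [← e1, e2, ← e3, e4]
  · intro h
    obtain ⟨n, hn⟩ := exists_y s u
    obtain ⟨m, hm⟩ := exists_y s w
    refine ⟨.y (cm u) n, .y (cm w) m, .x (cm u) (max n m), hn,
      (show lt' s _ _ from ⟨rfl, le_max_left _ _⟩),
      (show lt' s _ _ from ⟨h.symm, le_max_right _ _⟩), hm⟩

theorem bit_iff (m : ℕ) (u : El) : @Bit El (ord s) m u ↔ s (cm u).1 m = true := by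
  constructor
  · rintro ⟨w, h1, h2⟩
    rw [sc_iff] at h1
    rw [zb_iff] at h2
    obtain ⟨c, rfl, h3⟩ := h2
    rw [h1]
    exact h3
  · intro h
    refine ⟨.z (cm u) m, ?_, ?_⟩
    · rw [sc_iff]; rfl
    · rw [zb_iff]; exact ⟨cm u, rfl, h⟩

end Facts

end Pool.Agent.H74EH
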