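import Pool.Agent.H74EH.Hom

namespace Pool.Agent.H74EH

open FirstOrder FirstOrder.Language Classical

attribute [local instance] FirstOrder.Language.orderStructure

theorem back_forth {M N : Type} (u : ℕ → M) (w : ℕ → N) (Q : Finset (M × N) → Prop) (h0 : Q ∅)
    (hf : ∀ f, Q f → ∀ a, ∃ b, Q (insert (a, b) f))
    (hb : ∀ f, Q f → ∀ b, ∃ a, Q (insert (a, b) f)) :
    ∃ s : ℕ → Finset (M × N), (∀ n, Q (s n)) ∧ Monotone s ∧ (∀ k, ∃ b n, (u k, b) ∈ s n) ∧
      (∀ k, ∃ a n, (a, w k) ∈ s n) := by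
  have hstep : ∀ (k : ℕ) (f : {f // Q f}), ∃ g : {f // Q f}, f.1 ⊆ g.1 ∧
      (∃ b, (u k, b) ∈ g.1) ∧ (∃ a, (a, w k) ∈ g.1) := by
    intro k f
    obtain ⟨b, h1⟩ := hf f.1 f.2 (u k)
    obtain ⟨a, h2⟩ := hb _ h1 (w k)
    refine ⟨⟨_, h2⟩, ?_, ⟨b, ?_⟩, ⟨a, ?_⟩⟩
    · exact (Finset.subset_insert _ _).trans (Finset.subset_insert _ _)
    · exact Finset.mem_insert_of_mem (Finset.mem_insert_self _ _)
    · exact Finset.mem_insert_self _ _
  choose step hs1 hs2 hs3 using hstep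
  let s : ℕ → {f // Q f} := fun n => Nat.rec ⟨∅, h0⟩ (fun k f => step k f) n
  have hs : ∀ n, s (n + 1) = step n (s n) := fun n => rfl
  refine ⟨fun n => (s n).1, fun n => (s n).2, ?_, ?_, ?_⟩
  · apply monotone_nat_of_le_succ
    intro n
    show (s n).1 ⊆ (s (n + 1)).1
    rw [hs]
    exact hs1 n (s n)
  · intro a
    obtain ⟨b, h1⟩ := hs2 a (s a)
    exact ⟨b, a + 1, by show _ ∈ (s (a + 1)).1; rw [hs]; exact h1⟩
  · intro b
    obtain ⟨a, h1⟩ := hs3 b (s b)
    exact ⟨a, b + 1, by show _ ∈ (s (b + 1)).1; rw [hs]; exact h1⟩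

section TE

variable {M N : Type} [PartialOrder M] [PartialOrder N]

/-- `a` in `M` and `b` in `N` realise the same type -/
def TE {n : ℕ} (a : Fin n → M) (b : Fin n → N) : Prop :=
  ∀ φ : Language.order.Formula (Fin n), φ.Realize a ↔ φ.Realize b

theorem TE.symm {n : ℕ} {a : Fin n → M} {b : Fin n → N} (h : TE a b) : TE b a :=
  fun φ => (h φ).symm

theorem TE.init {n : ℕ} {a : Fin (n + 1) → M} {b : Fin (n + 1) → N} (h : TE a b) :
    TE (fun i => a i.castSucc) (fun i => b i.castSucc) := by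
  intro φ
  have h1 := h (φ.relabel Fin.castSucc)
  rw [Formula.realize_relabel, Formula.realize_relabel] at h1
  exact h1

theorem TE.of_iso (e : M ≃o N) {n : ℕ} (a : Fin n → M) : TE a (fun i => e (a i)) := by
  intro φ
  exact (StrongHomClass.realize_formula (toLEquiv e) φ (v := a)).symm

theorem TE.le {n : ℕ} {a : Fin n → M} {b : Fin n → N} (h : TE a b) (i j : Fin n) :
    a i ≤ a j ↔ b i ≤ b j := by
  have h1 := h (Relations.formula₂ (orderRel.le : Language.order.Relations 2) (Term.var i)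
    (Term.var j))
  rw [Formula.realize_rel₂, Formula.realize_rel₂] at h1
  exact h1

theorem TE.eq {n : ℕ} {a : Fin n → M} {b : Fin n → N} (h : TE a b) (i j : Fin n) :
    a i = a j ↔ b i = b j := by
  rw [le_antisymm_iff, le_antisymm_iff, h.le, h.le]

theorem TE.forth (hN : ElemHomogeneous N)
    (ht : ∀ (n : ℕ) (a : Fin n → M), ∃ b : Fin n → N, TE a b)
    {n : ℕ} {a : Fin n → M} {b : Fin n → N} (h : TE a b) (c : M) :
    ∃ d : N, TE (Fin.snoc a c : Fin (n + 1) → M) (Fin.snoc b d : Fin (n + 1) → N) := by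
  obtain ⟨b', hb'⟩ := ht (n + 1) (Fin.snoc a c)
  have h1 : TE a (fun i => b' i.castSucc) := by
    have h2 := hb'.init
    have h3 : (fun i : Fin n => (Fin.snoc a c : Fin (n + 1) → M) i.castSucc) = a := by
      funext i
      exact Fin.snoc_castSucc (α := fun _ => M) c a i
    rw [h3] at h2
    exact h2
  have h4 : ElemEquiv (fun i => b' i.castSucc) b := fun φ => (h1 φ).symm.trans (h φ)
  obtain ⟨α, hα⟩ := hN n _ _ h4
  refine ⟨α (b' (Fin.last n)), ?_⟩
  have h5 : (Fin.snoc b (α (b' (Fin.last n))) : Fin (n + 1) → N) = fun i => α (b' i) := by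
    funext i
    induction i using Fin.lastCases with
    | last => exact Fin.snoc_last (α := fun _ => N) _ _
    | cast i =>
      rw [hα]
      exact Fin.snoc_castSucc (α := fun _ => N) _ _ i
  rw [h5]
  intro φ
  exact (hb' φ).trans (TE.of_iso α b' φ)

/-- countable homogeneous models realising the same types are isomorphic -/
theorem uniq (u : ℕ → M) (hu : Function.Surjective u) (w : ℕ → N) (hw : Function.Surjective w)
    (hM : ElemHomogeneous M) (hN : ElemHomogeneous N)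
    (ht : ∀ (n : ℕ) (a : Fin n → M), ∃ b : Fin n → N, TE a b)
    (ht' : ∀ (n : ℕ) (b : Fin n → N), ∃ a : Fin n → M, TE b a) : Nonempty (M ≃o N) := by
  obtain ⟨s, hs, hmono, hF, hB⟩ := back_forth u w
    (fun f => ∃ (n : ℕ) (a : Fin n → M) (b : Fin n → N), TE a b ∧
      ∀ p, p ∈ f ↔ ∃ i, p = (a i, b i))
    (by
      obtain ⟨b, hb⟩ := ht 0 (fun i => i.elim0)
      refine ⟨0, _, b, hb, ?_⟩
      intro p
      constructor
      · intro h; exact absurd h (Finset.notMem_empty _)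
      · rintro ⟨i, _⟩; exact i.elim0) (by
      rintro f ⟨n, a, b, hab, hf⟩ c
      obtain ⟨d, hd⟩ := TE.forth hN ht hab c
      refine ⟨d, n + 1, _, _, hd, ?_⟩
      intro p
      rw [Finset.mem_insert, hf]
      constructor
      · rintro (rfl | ⟨i, rfl⟩)
        · exact ⟨Fin.last n, by rw [Fin.snoc_last, Fin.snoc_last]⟩
        · exact ⟨i.castSucc, by rw [Fin.snoc_castSucc, Fin.snoc_castSucc]⟩
      · rintro ⟨i, rfl⟩
        induction i using Fin.lastCases with
        | last => left; rw [Fin.snoc_last, Fin.snoc_last]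
        | cast i => right; exact ⟨i, by rw [Fin.snoc_castSucc, Fin.snoc_castSucc]⟩) (by
      rintro f ⟨n, a, b, hab, hf⟩ d
      obtain ⟨c, hc⟩ := TE.forth hM ht' hab.symm d
      refine ⟨c, n + 1, _, _, hc.symm, ?_⟩
      intro p
      rw [Finset.mem_insert, hf]
      constructor
      · rintro (rfl | ⟨i, rfl⟩)
        · exact ⟨Fin.last n, by rw [Fin.snoc_last, Fin.snoc_last]⟩
        · exact ⟨i.castSucc, by rw [Fin.snoc_castSucc, Fin.snoc_castSucc]⟩
      · rintro ⟨i, rfl⟩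
        induction i using Fin.lastCases with
        | last => left; rw [Fin.snoc_last, Fin.snoc_last]
        | cast i => right; exact ⟨i, by rw [Fin.snoc_castSucc, Fin.snoc_castSucc]⟩)
  have hF' : ∀ x : M, ∃ y n, (x, y) ∈ s n := by
    intro x
    obtain ⟨k, rfl⟩ := hu x
    exact hF k
  have hB' : ∀ y : N, ∃ x n, (x, y) ∈ s n := by
    intro y
    obtain ⟨k, rfl⟩ := hw y
    exact hB k
  choose F nF hF using hF'
  have key : ∀ p q : M × N, (∃ n, p ∈ s n) → (∃ n, q ∈ s n) →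
      (p.1 = q.1 ↔ p.2 = q.2) ∧ (p.1 ≤ q.1 ↔ p.2 ≤ q.2) := by
    rintro p q ⟨n, hn⟩ ⟨m, hm⟩
    obtain ⟨k, a, b, hab, hf⟩ := hs (max n m)
    obtain ⟨i, rfl⟩ := (hf p).1 (hmono (le_max_left _ _) hn)
    obtain ⟨j, rfl⟩ := (hf q).1 (hmono (le_max_right _ _) hm)
    exact ⟨hab.eq i j, hab.le i j⟩
  have hinj : Function.Injective F := by
    intro a a' haa
    exact (key (a, F a) (a', F a') ⟨_, hF a⟩ ⟨_, hF a'⟩).1.2 haa
  have hsurj : Function.Surjective F := by
    intro b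
    obtain ⟨a, n, h1⟩ := hB' b
    exact ⟨a, (key (a, F a) (a, b) ⟨_, hF a⟩ ⟨n, h1⟩).1.1 rfl⟩
  refine ⟨⟨Equiv.ofBijective F ⟨hinj, hsurj⟩, ?_⟩⟩
  intro a a'
  exact (key (a, F a) (a', F a') ⟨_, hF a⟩ ⟨_, hF a'⟩).2.symm

end TE

end Pool.Agent.H74EH
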