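import Pool.Agent.H74EH.Unique
import Pool.Agent.H74EH.Final

namespace Pool.Agent.H74EH

open FirstOrder FirstOrder.Language Classical

/-- The σ-algebra on the set of partial orders on `ℕ` generated by the sets of those partial
orders in which `m ≤ n`, for `m`, `n` in `ℕ`. -/
@[reducible] def posetSpace : MeasurableSpace (PartialOrder ℕ) :=
  MeasurableSpace.generateFrom {S | ∃ m n : ℕ, S = {P : PartialOrder ℕ | P.le m n}}

/-- the structure given by a partial order on `ℕ` -/
@[reducible] def St (P : PartialOrder ℕ) : Language.order.Structure ℕ :=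
  @orderStructure ℕ P.toLE

theorem term_const {β : Type} (t : Language.order.Term β) (v : β → ℕ) :
    ∃ k : ℕ, ∀ P : PartialOrder ℕ, @Term.realize Language.order ℕ (St P) β v t = k := by
  cases t with
  | var a => exact ⟨v a, fun _ => rfl⟩
  | func f ts => exact isEmptyElim f

theorem meas_bounded {α : Type} {n : ℕ} (φ : Language.order.BoundedFormula α n) :
    ∀ (v : α → ℕ) (xs : Fin n → ℕ), @MeasurableSet _ posetSpace
      {P : PartialOrder ℕ | @BoundedFormula.Realize Language.order ℕ (St P) α n φ v xs} := by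
  let _ := posetSpace
  induction φ with
  | falsum =>
    intro v xs
    exact MeasurableSet.const False
  | equal t1 t2 =>
    intro v xs
    obtain ⟨k1, h1⟩ := term_const t1 (Sum.elim v xs)
    obtain ⟨k2, h2⟩ := term_const t2 (Sum.elim v xs)
    have : {P : PartialOrder ℕ | @BoundedFormula.Realize Language.order ℕ (St P) _ _
        (BoundedFormula.equal t1 t2) v xs} = {P : PartialOrder ℕ | k1 = k2} := by
      ext P
      show (@Term.realize Language.order ℕ (St P) _ (Sum.elim v xs) t1 =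
        @Term.realize Language.order ℕ (St P) _ (Sum.elim v xs) t2) ↔ k1 = k2
      rw [h1, h2]
    rw [this]
    exact MeasurableSet.const _
  | rel R ts =>
    intro v xs
    cases R
    obtain ⟨k1, h1⟩ := term_const (ts 0) (Sum.elim v xs)
    obtain ⟨k2, h2⟩ := term_const (ts 1) (Sum.elim v xs)
    have : {P : PartialOrder ℕ | @BoundedFormula.Realize Language.order ℕ (St P) _ _
        (BoundedFormula.rel orderRel.le ts) v xs} = {P : PartialOrder ℕ | P.le k1 k2} := by
      ext P
      show P.le (@Term.realize Language.order ℕ (St P) _ (Sum.elim v xs) (ts 0))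
        (@Term.realize Language.order ℕ (St P) _ (Sum.elim v xs) (ts 1)) ↔ P.le k1 k2
      rw [h1, h2]
    rw [this]
    exact MeasurableSpace.measurableSet_generateFrom ⟨k1, k2, rfl⟩
  | imp f1 f2 ih1 ih2 =>
    intro v xs
    have : {P : PartialOrder ℕ | @BoundedFormula.Realize Language.order ℕ (St P) _ _
        (BoundedFormula.imp f1 f2) v xs} =
        {P : PartialOrder ℕ | @BoundedFormula.Realize Language.order ℕ (St P) _ _ f1 v xs}ᶜ ∪
        {P : PartialOrder ℕ | @BoundedFormula.Realize Language.order ℕ (St P) _ _ f2 v xs} := by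
      ext P
      show (@BoundedFormula.Realize Language.order ℕ (St P) _ _ f1 v xs →
        @BoundedFormula.Realize Language.order ℕ (St P) _ _ f2 v xs) ↔ _
      rw [Set.mem_union, Set.mem_compl_iff, Set.mem_setOf_eq, Set.mem_setOf_eq]
      tauto
    rw [this]
    exact (ih1 v xs).compl.union (ih2 v xs)
  | all f ih =>
    intro v xs
    have : {P : PartialOrder ℕ | @BoundedFormula.Realize Language.order ℕ (St P) _ _
        (BoundedFormula.all f) v xs} =
        ⋂ x : ℕ, {P : PartialOrder ℕ | @BoundedFormula.Realize Language.order ℕ (St P) _ _ f v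
          (Fin.snoc xs x)} := by
      ext P
      rw [Set.mem_iInter]
      exact Iff.rfl
    rw [this]
    exact MeasurableSet.iInter fun x => ih v _

/-- `f` holds of the tuple `t` in `P` (and the lengths agree) -/
def Sat (P : PartialOrder ℕ) (t : Σ n, (Fin n → ℕ)) (f : Σ n, Language.order.Formula (Fin n)) :
    Prop :=
  ∃ h : t.1 = f.1, @Formula.Realize Language.order ℕ (St P) _ f.2
    (fun i => t.2 (Fin.cast h.symm i))

theorem sat_meas (t : Σ n, (Fin n → ℕ)) (f : Σ n, Language.order.Formula (Fin n)) :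
    @MeasurableSet _ posetSpace {P : PartialOrder ℕ | Sat P t f} := by
  let _ := posetSpace
  by_cases h : t.1 = f.1
  · have : {P : PartialOrder ℕ | Sat P t f} = {P : PartialOrder ℕ |
        @Formula.Realize Language.order ℕ (St P) _ f.2 (fun i => t.2 (Fin.cast h.symm i))} := by
      ext P
      exact ⟨fun ⟨_, h2⟩ => h2, fun h2 => ⟨h, h2⟩⟩
    rw [this]
    exact meas_bounded f.2 _ _
  · have : {P : PartialOrder ℕ | Sat P t f} = ∅ := by
      ext P
      exact ⟨fun ⟨h2, _⟩ => (h h2).elim, fun h2 => h2.elim⟩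
    rw [this]
    exact MeasurableSet.empty

theorem sat_eq (P Q : PartialOrder ℕ) (t t' : Σ n, (Fin n → ℕ)) :
    (∀ f, Sat P t f ↔ Sat Q t' f) ↔
      ∃ h : t.1 = t'.1, @TE ℕ ℕ P Q t.1 t.2 (fun i => t'.2 (Fin.cast h i)) := by
  obtain ⟨n, a⟩ := t
  obtain ⟨m, b⟩ := t'
  constructor
  · intro h
    have h1 : Sat P ⟨n, a⟩ ⟨n, (⊤ : Language.order.Formula (Fin n))⟩ :=
      ⟨rfl, by
        let _ := St P
        exact Formula.realize_top.2 trivial⟩
    obtain ⟨h2, _⟩ := (h _).1 h1
    have h3 : m = n := h2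
    subst h3
    refine ⟨rfl, ?_⟩
    intro φ
    have h4 := h ⟨m, φ⟩
    constructor
    · intro h5
      exact (h4.1 ⟨rfl, h5⟩).2
    · intro h5
      exact (h4.2 ⟨rfl, h5⟩).2
  · rintro ⟨h1, h2⟩
    have h3 : n = m := h1
    subst h3
    rintro ⟨k, φ⟩
    constructor
    · rintro ⟨h4, h5⟩
      have h6 : n = k := h4
      subst h6
      exact ⟨rfl, (h2 φ).1 h5⟩
    · rintro ⟨h4, h5⟩
      have h6 : n = k := h4
      subst h6
      exact ⟨rfl, (h2 φ).2 h5⟩

theorem upper : ∃ Ψ : PartialOrder ℕ → (ℕ → ℕ → Bool),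
    @Measurable _ _ posetSpace MeasurableSpace.pi Ψ ∧
    ∀ P Q : PartialOrder ℕ, @ElemHomogeneous ℕ P → @ElemHomogeneous ℕ Q →
      (Nonempty (@OrderIso ℕ ℕ P.toLE Q.toLE) ↔ Set.range (Ψ P) = Set.range (Ψ Q)) := by
  have : Nonempty (Σ n, (Fin n → ℕ)) := ⟨⟨0, fun i => i.elim0⟩⟩
  have : Nonempty (Σ n, Language.order.Formula (Fin n)) := ⟨⟨0, ⊤⟩⟩
  obtain ⟨uT, hT⟩ := exists_surjective_nat (Σ n, (Fin n → ℕ))
  obtain ⟨uF, hF⟩ := exists_surjective_nat (Σ n, Language.order.Formula (Fin n))
  have key : ∀ (P Q : PartialOrder ℕ) (k k' : ℕ),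
      ((fun j => decide (Sat P (uT k) (uF j))) = (fun j => decide (Sat Q (uT k') (uF j)))) ↔
      ∃ h : (uT k).1 = (uT k').1, @TE ℕ ℕ P Q (uT k).1 (uT k).2
        (fun i => (uT k').2 (Fin.cast h i)) := by
    intro P Q k k'
    rw [← sat_eq, funext_iff]
    simp only [decide_eq_decide]
    constructor
    · intro h f
      obtain ⟨j, rfl⟩ := hF f
      exact h j
    · exact fun h j => h _
  refine ⟨fun P k j => decide (Sat P (uT k) (uF j)), ?_, ?_⟩
  · let _ := posetSpace
    rw [measurable_pi_iff]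
    intro k
    rw [measurable_pi_iff]
    intro j
    apply measurable_to_bool
    have : (fun P : PartialOrder ℕ => decide (Sat P (uT k) (uF j))) ⁻¹' {true} =
        {P : PartialOrder ℕ | Sat P (uT k) (uF j)} := by
      ext P
      simp
    rw [this]
    exact sat_meas _ _
  · intro P Q hP hQ
    have sub : ∀ (P Q : PartialOrder ℕ), Nonempty (@OrderIso ℕ ℕ P.toLE Q.toLE) →
        Set.range (fun k j => decide (Sat P (uT k) (uF j))) ⊆
        Set.range (fun k j => decide (Sat Q (uT k) (uF j))) := by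
      rintro P Q ⟨e⟩ _ ⟨k, rfl⟩
      obtain ⟨k', hk'⟩ := hT ⟨(uT k).1, fun i => e ((uT k).2 i)⟩
      refine ⟨k', ?_⟩
      symm
      rw [key, hk']
      exact ⟨rfl, @TE.of_iso ℕ ℕ P Q e _ _⟩
    have types : ∀ (P Q : PartialOrder ℕ),
        Set.range (fun k j => decide (Sat P (uT k) (uF j))) ⊆
        Set.range (fun k j => decide (Sat Q (uT k) (uF j))) →
        ∀ (n : ℕ) (a : Fin n → ℕ), ∃ b : Fin n → ℕ, @TE ℕ ℕ P Q n a b := by
      intro P Q hsub n a
      obtain ⟨k, hk⟩ := hT ⟨n, a⟩
      obtain ⟨k', hk'⟩ := hsub ⟨k, rfl⟩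
      have h1 := (key P Q k k').1 hk'.symm
      rw [hk] at h1
      obtain ⟨h2, h3⟩ := h1
      exact ⟨_, h3⟩
    constructor
    · rintro ⟨e⟩
      exact Set.Subset.antisymm (sub P Q ⟨e⟩) (sub Q P ⟨RelIso.symm e⟩)
    · intro h
      exact @uniq ℕ ℕ P Q id Function.surjective_id id Function.surjective_id hP hQ
        (types P Q h.subset) (types Q P h.symm.subset)

end Pool.Agent.H74EH
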